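import Pool.Agent.N488.P24.SymCore

/-!
# The minus modular symbol of `X_0(24)` as a counting function (`P24-SYM`)

Let `s` be an odd, one antiperiodic function on the rationals, with values in a commutative domain
`R` of characteristic zero (for instance `ℤ` or `ℝ`), which satisfies for `Γ_0(6)` the rule
`s ((A x + B M) / (6 C x + D M)) = ± s (x / M) + s (B / D)` with the sign `(-1) ^ (B + C)`, and has
the value `s (2 / 5) = - k`.  Then `s (x / M) = k * Fp x M` for all `0 < M` with `6 x` prime to `M`.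
-/

set_option autoImplicit false

open Finset

namespace Pool.Agent.N488.P24

open Pool.Agent.N877.P24 (Fp)

variable {R : Type*} [CommRing R] {s : ℚ → R} {k : R}

/-- antiperiodicity by integers -/
theorem per_int (hper : ∀ x : ℚ, s (x + 1) = -s x) (x : ℚ) (m : ℤ) :
    s (x + m) = ((chi m 0 : ℤ) : R) * s x := by
  induction m using Int.induction_on with
  | zero =>
    have : chi 0 0 = 1 := rfl
    rw [this]
    simp
  | succ n ih =>
    have e : (x + (((n : ℤ) + 1 : ℤ) : ℚ)) = (x + ((n : ℤ) : ℚ)) + 1 := by push_cast; ring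
    have e2 : chi ((n : ℤ) + 1) 0 = -chi (n : ℤ) 0 := by
      unfold chi
      by_cases h : (2 : ℤ) ∣ (n : ℤ) + 0
      · rw [if_pos h, if_neg (by omega)]
      · rw [if_neg h, if_pos (by omega), neg_neg]
    rw [e, hper, ih, e2]
    push_cast
    ring
  | pred n ih =>
    have e : (x + ((-(n : ℤ) : ℤ) : ℚ)) = (x + ((-(n : ℤ) - 1 : ℤ) : ℚ)) + 1 := by
      push_cast; ring
    have e2 : chi (-(n : ℤ) - 1) 0 = -chi (-(n : ℤ)) 0 := by
      unfold chi
      by_cases h : (2 : ℤ) ∣ -(n : ℤ) + 0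
      · rw [if_pos h, if_neg (by omega)]
      · rw [if_neg h, if_pos (by omega), neg_neg]
    rw [e, hper] at ih
    rw [e2]
    push_cast at ih ⊢
    linear_combination -ih

/-- the symbol is given by the counting function -/
def Gd (s : ℚ → R) (k : R) (x M : ℤ) : Prop := s ((x : ℚ) / M) = k * ((Fp x M : ℤ) : R)

theorem Gd.neg_neg {x M : ℤ} (hc : IsCoprime (6 * x) M) (h : Gd s k x M) :
    Gd s k (-x) (-M) := by
  unfold Gd at h ⊢
  rw [Fp_neg_neg hc, ← h]
  push_cast
  rw [neg_div_neg_eq]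

theorem Gd.neg (hodd : ∀ x : ℚ, s (-x) = -s x) {x M : ℤ} (hc : IsCoprime (6 * x) M)
    (h : Gd s k x M) : Gd s k (-x) M := by
  unfold Gd at h ⊢
  rw [Fp_neg hc]
  push_cast
  rw [neg_div, hodd, h]
  ring

theorem Gd.add (hper : ∀ x : ℚ, s (x + 1) = -s x) {x M : ℤ} (hM : M ≠ 0) (m : ℤ)
    (hc : IsCoprime (6 * x) M) (h : Gd s k x M) : Gd s k (x + m * M) M := by
  unfold Gd at h ⊢
  have hMq : (M : ℚ) ≠ 0 := by exact_mod_cast hM
  have e : (((x + m * M : ℤ) : ℚ) / M) = (x : ℚ) / M + m := by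
    push_cast
    field_simp
  rw [e, per_int hper, Fp_add_mul hc, h]
  push_cast
  ring

theorem s_zero [IsDomain R] [CharZero R] (hodd : ∀ x : ℚ, s (-x) = -s x) : s 0 = 0 := by
  have h1 := hodd 0
  rw [neg_zero] at h1
  have h2 : (2 : R) * s 0 = 0 := by linear_combination h1
  exact (mul_eq_zero.1 h2).resolve_left two_ne_zero

theorem Gd.one [IsDomain R] [CharZero R] (hper : ∀ x : ℚ, s (x + 1) = -s x)
    (hodd : ∀ x : ℚ, s (-x) = -s x) (x : ℤ) : Gd s k x 1 := by
  unfold Gd
  have e : ((x : ℚ) / ((1 : ℤ) : ℚ)) = 0 + (x : ℤ) := by simp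
  rw [e, per_int hper, Fp_one, s_zero hodd]
  simp

/-- the rule for `Γ_0(6)` gives the step of the induction -/
theorem Gd.of_aff
    (haff : ∀ {A B C' D : ℤ}, A * D - B * (6 * C') = 1 → ∀ {x c : ℤ}, IsCoprime (6 * x) c →
      s (((A * x + B * c : ℤ) : ℚ) / ((6 * C' * x + D * c : ℤ) : ℚ)) =
        (if (2 : ℤ) ∣ B + C' then 1 else -1) * s ((x : ℚ) / c) + s ((B : ℚ) / D))
    {A B c D : ℤ} (hdet : A * D - B * (6 * c) = 1)
    {x M : ℤ} (hcop : IsCoprime (6 * x) M)
    (h1 : Gd s k (A * x + B * M) (6 * c * x + D * M))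
    (h2 : Gd s k B D) : Gd s k x M := by
  unfold Gd at h1 h2 ⊢
  have h3 := Fp_aff hdet hcop
  have h4 := haff hdet hcop
  rw [h4, h2, h3] at h1
  by_cases h5 : (2 : ℤ) ∣ B + c
  · rw [if_pos h5, if_pos h5] at h1
    push_cast at h1
    linear_combination h1
  · rw [if_neg h5, if_neg h5] at h1
    push_cast at h1
    linear_combination -h1

theorem Gd_all [IsDomain R] [CharZero R] (hper : ∀ x : ℚ, s (x + 1) = -s x)
    (hodd : ∀ x : ℚ, s (-x) = -s x)
    (haff : ∀ {A B C' D : ℤ}, A * D - B * (6 * C') = 1 → ∀ {x c : ℤ}, IsCoprime (6 * x) c →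
      s (((A * x + B * c : ℤ) : ℚ) / ((6 * C' * x + D * c : ℤ) : ℚ)) =
        (if (2 : ℤ) ∣ B + C' then 1 else -1) * s ((x : ℚ) / c) + s ((B : ℚ) / D))
    (h25 : s (2 / 5) = -k)
    (n : ℕ) : ∀ x M : ℤ, M.natAbs = n → M ≠ 0 →
    IsCoprime (6 * x) M → Gd s k x M := by
  have G25 : Gd s k 2 5 := by
    have e : (((2 : ℤ) : ℚ) / ((5 : ℤ) : ℚ)) = 2 / 5 := by norm_num
    unfold Gd
    rw [e, h25, Fp25]
    simp
  have c25 : IsCoprime (6 * (2 : ℤ)) 5 := ⟨-2, 5, by norm_num⟩
  induction n using Nat.strong_induction_on with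
  | _ n ih =>
    intro x M hn hM0 hcop
    -- reduction to positive denominators
    wlog hMp : 0 < M generalizing x M
    · have hc' : IsCoprime (6 * (-x)) (-M) := by rw [mul_neg]; exact hcop.neg_neg
      have h1 := this (-x) (-M) (by rw [Int.natAbs_neg, hn]) (neg_ne_zero.2 hM0) hc' (by omega)
      have h2 := h1.neg_neg hc'
      rwa [_root_.neg_neg, _root_.neg_neg] at h2
    rcases eq_or_ne M 1 with rfl | hM1
    · exact Gd.one hper hodd x
    -- the general step
    have step : ∀ (y : ℤ), IsCoprime (6 * y) M → 0 < y → 2 * y ≤ M → Gd s k y M := by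
      intro y hy hy0 hy1
      have hnd' : ∀ j : ℤ, 6 * y ≠ j * M := by
        intro j hj
        have h3 := hy.isUnit_of_dvd' (Dvd.intro_left j hj.symm) (dvd_refl M)
        rw [Int.isUnit_iff] at h3
        omega
      have main : ∀ (A B D : ℤ) (c : ℤ), A * D - B * (6 * c) = 1 →
          |6 * c * y + D * M| < M → Gd s k B D → Gd s k y M := by
        intro A B D c hdet hlt hBD
        have hci := cop_image hdet hy
        have hK : 6 * c * y + D * M ≠ 0 := by
          intro h0
          rw [h0, isCoprime_zero_right, Int.isUnit_iff] at hci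
          omega
        refine Gd.of_aff haff hdet hy ?_ hBD
        refine ih _ ?_ _ _ rfl hK hci
        rw [← hn]
        zify
        rw [abs_of_pos hMp]
        exact hlt
      have c1 : 3 * y < M ∨ (M < 3 * y ∧ 2 * y < M) := by
        have := hnd' 2
        have := hnd' 3
        omega
      rcases c1 with c1 | c1
      · refine main (-1) 0 (-1) 1 (by norm_num) ?_ ?_
        · rw [abs_lt]
          constructor <;> omega
        · have h1 := (Gd.one (k := k) hper hodd 0).neg_neg (by norm_num)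
          exact h1
      · refine main (-5) 2 (-5) 2 (by norm_num) ?_ ?_
        · rw [abs_lt]
          constructor <;> omega
        · have h1 := (G25.neg hodd c25).neg_neg (by rw [mul_neg]; exact c25.neg_left)
          exact h1
    -- reduce `x` modulo `M`
    obtain ⟨y, m, hxy, hy0, hyM⟩ : ∃ y m : ℤ, x = y + m * M ∧ 0 ≤ y ∧ y < M :=
      ⟨x % M, x / M, by linear_combination -(Int.emod_add_mul_ediv x M), Int.emod_nonneg _ hM0,
        Int.emod_lt_of_pos _ hMp⟩
    have hcy : IsCoprime (6 * y) M := by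
      have h1 : 6 * x = 6 * y + (6 * m) * M := by rw [hxy]; ring
      rw [h1] at hcop
      exact (IsCoprime.add_mul_right_left_iff).1 hcop
    have hy00 : y ≠ 0 := by
      rintro rfl
      rw [mul_zero, isCoprime_zero_left, Int.isUnit_iff] at hcy
      omega
    rw [hxy]
    refine Gd.add hper hM0 m hcy ?_
    rcases le_or_gt (2 * y) M with h1 | h1
    · exact step y hcy (by omega) h1
    · have h2 : IsCoprime (6 * (M - y)) M := by
        have h3 : 6 * (M - y) = -(6 * y) + 6 * M := by ring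
        rw [h3]
        exact (IsCoprime.add_mul_right_left_iff).2 hcy.neg_left
      have h3 := step (M - y) h2 (by omega) (by omega)
      have h5 : IsCoprime (6 * (-(M - y))) M := by
        rw [mul_neg]; exact h2.neg_left
      have h4 := (h3.neg hodd h2).add hper hM0 1 h5
      have e : -(M - y) + 1 * M = y := by ring
      rwa [e] at h4

/-- **P24-SYM**: the minus modular symbol of level `24` is `k` times the counting function -/
theorem t_SYM [IsDomain R] [CharZero R] (hper : ∀ x : ℚ, s (x + 1) = -s x)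
    (hodd : ∀ x : ℚ, s (-x) = -s x)
    (haff : ∀ {A B C D : ℤ}, A * D - B * (6 * C) = 1 → ∀ {x c : ℤ}, IsCoprime (6 * x) c →
      s (((A * x + B * c : ℤ) : ℚ) / ((6 * C * x + D * c : ℤ) : ℚ)) =
        (if (2 : ℤ) ∣ B + C then 1 else -1) * s ((x : ℚ) / c) + s ((B : ℚ) / D))
    (h25 : s (2 / 5) = -k) :
    ∀ x M : ℤ, 0 < M → IsCoprime (6 * x) M → s ((x : ℚ) / M) = k * ((Fp x M : ℤ) : R) :=
  fun x M hM hcop => Gd_all hper hodd haff h25 M.natAbs x M rfl hM.ne' hcop

/-- **P24-SYM**, integral form -/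
theorem t_SYM_int {s : ℚ → ℤ} {k : ℤ} (hper : ∀ x : ℚ, s (x + 1) = -s x)
    (hodd : ∀ x : ℚ, s (-x) = -s x)
    (haff : ∀ {A B C D : ℤ}, A * D - B * (6 * C) = 1 → ∀ {x c : ℤ}, IsCoprime (6 * x) c →
      s (((A * x + B * c : ℤ) : ℚ) / ((6 * C * x + D * c : ℤ) : ℚ)) =
        (if (2 : ℤ) ∣ B + C then 1 else -1) * s ((x : ℚ) / c) + s ((B : ℚ) / D))
    (h25 : s (2 / 5) = -k) :
    ∀ x M : ℤ, 0 < M → IsCoprime (6 * x) M → s ((x : ℚ) / M) = k * Fp x M := by
  intro x M hM hcop
  have h1 := t_SYM hper hodd haff h25 x M hM hcop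
  simpa using h1

end Pool.Agent.N488.P24
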